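import Pool.Agent.Helper185.SilverFinal
import Pool.Agent.Helper292.ForceCH

/-!
Borel omega-cover selection need not give Borel selection in finite powers: forced form.
-/

namespace Pool.Agent.Results.MP_b4c787_gt.ConsistentlyFails

theorem result :
    (∃ (P : Type) (_ : Preorder P), Nonempty P ∧ ∀ p : P,
      p ∈ Pool.Agent.Helper292.ForceCH.OmegaOnePreserved P ∧
      p ∈ Pool.Agent.Helper292.ForceCH.CHHolds P) ∧
    (Cardinal.aleph 1 = Cardinal.continuum.{0} →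
    ∃ X : Set ℝ,
      (∀ U : ℕ → ℕ → Set ℝ,
        (∀ m, (∀ n, MeasurableSet (U m n)) ∧ (∀ n, ¬ X ⊆ U m n) ∧
          ∀ F : Finset ℝ, (F : Set ℝ) ⊆ X → ∃ n, (F : Set ℝ) ⊆ U m n) →
        ∃ f : ℕ → ℕ, (∀ n, ¬ X ⊆ U n (f n)) ∧
          ∀ F : Finset ℝ, (F : Set ℝ) ⊆ X → ∃ n, (F : Set ℝ) ⊆ U n (f n)) ∧
      ∃ V : ℕ → ℕ → Set (Fin 2 → ℝ),
        (∀ m, (∀ n, MeasurableSet (V m n)) ∧ Set.pi Set.univ (fun _ => X) ⊆ ⋃ n, V m n) ∧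
        ∀ f : ℕ → ℕ, ¬ Set.pi Set.univ (fun _ => X) ⊆ ⋃ m, V m (f m)) := by
  refine ⟨?_, Pool.Agent.Helper185.Silver.enumerated⟩
  obtain ⟨P, i, h1, h2⟩ := Pool.Agent.Helper292.ForceCH.exists_forcing
  exact ⟨P, i, h1, fun p => ⟨(h2 p).1, (h2 p).2.2⟩⟩

end Pool.Agent.Results.MP_b4c787_gt.ConsistentlyFails
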