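import Pool.Agent.Helper185.SilverFinal

/-!
If Borel omega-cover selection gives Borel selection in all finite powers, then the continuum
hypothesis fails.
-/

namespace Pool.Agent.Results.MP_b4c787_gt.PowersRefuteCH

/-- If for every set of reals selection for countable Borel omega-covers gives selection for
countable Borel covers in all finite powers, then the continuum hypothesis fails. -/
theorem result :
    (∀ X : Set ℝ,
      (∀ U : ℕ → ℕ → Set ℝ,
        (∀ m, (∀ n, MeasurableSet (U m n)) ∧ (∀ n, ¬ X ⊆ U m n) ∧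
          ∀ F : Finset ℝ, (F : Set ℝ) ⊆ X → ∃ n, (F : Set ℝ) ⊆ U m n) →
        ∃ f : ℕ → ℕ, (∀ n, ¬ X ⊆ U n (f n)) ∧
          ∀ F : Finset ℝ, (F : Set ℝ) ⊆ X → ∃ n, (F : Set ℝ) ⊆ U n (f n)) →
      ∀ k : ℕ, ∀ V : ℕ → ℕ → Set (Fin k → ℝ),
        (∀ m, (∀ n, MeasurableSet (V m n)) ∧ Set.pi Set.univ (fun _ => X) ⊆ ⋃ n, V m n) →
        ∃ f : ℕ → ℕ, Set.pi Set.univ (fun _ => X) ⊆ ⋃ m, V m (f m)) →
      Cardinal.aleph 1 ≠ Cardinal.continuum.{0} := by
  intro h hCH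
  obtain ⟨X, h1, V, h2, h3⟩ := Pool.Agent.Helper185.Silver.enumerated hCH
  obtain ⟨f, hf⟩ := h X h1 2 V h2
  exact h3 f hf

end Pool.Agent.Results.MP_b4c787_gt.PowersRefuteCH
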